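import Pool.Agent.E8helper75.F3.Bas
import Pool.Agent.E8helper75.QI.Stm

/-!
The statements of the pieces for the curves `y² = x³ + u D x` over `ℚ(i)`, `u = ± (1 + i)³`, `D = ∏ l`,
`l ∈ S`, a product of distinct primary primes.
-/

set_option autoImplicit false
set_option linter.unusedSectionVars false

open Filter Complex NumberField IsDedekindDomain
open scoped Topology PeriodPair
open H667R3 hiding sq
open Pool.Agent.TH936.CM Pool.Agent.W192.HK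

namespace Pool.Agent.E8helper75.F3

open Pool.Agent.Y699 (GLat OT Cg RS PF PP DD c4 on1 wt em pi1 dz LG plc)
open Pool.Agent.E8helper21.Q2
open Pool.Agent.E8helper75.QI (cT)
open H385 (ZI RQ im1 nrm)
open Pool.Agent.H304R3.HK (tc HC LH)
open Pool.Agent.W164.RC (two2)
open Pool.Agent.H304R2.EC.A1 (prim)
open Pool.Agent.Y697.MQ (OP gA gθ leg)
open Pool.Agent.Y697.PP (Mt)
open Pool.Agent.Y715.Z (em0)
open Pool.Agent.Y682 (vv IsT)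
open Pool.Agent.Y696 (NonsingRed)

/-! ### the characters -/

/-- THR: the two characters -/
def S_THR : Prop := TR th0 ∧ TR th1

/-- SUP: the supplementary law for `1 + i` -/
def S_SUP3 : Prop := ∀ π : ZI, PP π → Pool.Agent.Y699.q4 π pi1 = rh π

/-- HCR -/
def S_HCR : Prop := ∀ (θ : ZI → ZI) (H : TR θ) (ι : Type) [DecidableEq ι] (pr : ι → ZI) (hp : PF pr)
  (V : Finset ι), HC (cnG pr V) (XR H hp V)

/-- LHR -/
def S_LHR : Prop := ∀ (θ : ZI → ZI) (H : TR θ) (ι : Type) [DecidableEq ι] (pr : ι → ZI) (hp : PF pr)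
  (V : Finset ι) (l : ℂ),
  Tendsto (RS (cT θ pr V)) (𝓝[>] 0) (𝓝 l) → LH (XR H hp V) (1 / 2) = (starRingEnd ℂ) l

/-- CHR: the values of the two characters -/
def S_CHR : Prop := ∀ (H0 : TR th0) (H1 : TR th1) (ι : Type) [DecidableEq ι] (pr : ι → ZI) (hp : PF pr)
  (V : Finset ι),
  (∀ z : ZI, PP z → z ∣ DD pr V → XR H0 hp V z = 0 ∧ XR H1 hp V z = 0) ∧
  (∀ z : ZI, PP z → ¬ z ∣ DD pr V →
    (∑ i ∈ V, wt pr i = 0 →
      XR H1 hp V z = (starRingEnd ℂ) (tc (Pool.Agent.Y699.q4 z (-(⟨-2, 2⟩ * DD pr V)))) ∧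
      XR H0 hp V z = (starRingEnd ℂ) (tc (Pool.Agent.Y699.q4 z (-(⟨2, -2⟩ * DD pr V))))) ∧
    (∑ i ∈ V, wt pr i = 1 →
      XR H0 hp V z = (starRingEnd ℂ) (tc (Pool.Agent.Y699.q4 z (-(⟨-2, 2⟩ * DD pr V)))) ∧
      XR H1 hp V z = (starRingEnd ℂ) (tc (Pool.Agent.Y699.q4 z (-(⟨2, -2⟩ * DD pr V))))))

/-! ### the functions -/

/-- LKR: the limits -/
def S_LKR : Prop := ∀ (L : PeriodPair) (Ω : ℂ), GLat L Ω → ∀ z : ℂ, z ∉ L.lattice →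
  Tendsto (fun δ : ℝ => ∑' b : ZI, tc (th0 (1 + two2 * b)) * fd δ (z + Ω * tc b)) (𝓝[>] 0)
    (𝓝 (KG 1 L Ω z)) ∧
  Tendsto (fun δ : ℝ => ∑' b : ZI, tc (th1 (1 + two2 * b)) * fd δ (z + Ω * tc b)) (𝓝[>] 0)
    (𝓝 (KG (-1) L Ω z))

/-- MG -/
def S_MG : Prop := ∀ (L : PeriodPair) (Ω : ℂ), GLat L Ω → ∀ z : ℂ, 2 * z ∉ L.lattice →
  MG L Ω z ^ 2 = 2 - 2 * e1 L Ω * ℘[L] z

/-- TG -/
def S_TG : Prop := ∀ (L : PeriodPair) (Ω : ℂ), GLat L Ω → ∃ c : ℂ, c ^ 2 = e1 L Ω ∧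
  ∀ z : ℂ, 2 * z ∉ L.lattice → TG L Ω z ^ 2 = ℘[L] z ^ 2 + 1 + c * ℘'[L] z

/-- STR: the sign of the real part of `Hf` in the strip -/
def S_STR : Prop := ∀ (L : PeriodPair) (A : ℝ), 0 < A → GLat L (A : ℂ) → ∀ z : ℂ, 0 < z.re → z.re < A →
  0 < (Hf L A z).re

/-- DG: the values at the division point -/
def S_DG : Prop := ∀ (L : PeriodPair) (A : ℝ), 0 < A → GLat L (A : ℂ) →
  KG 1 L A (dz A) ^ 8 = 32 * I ∧ KG (-1) L A (dz A) ^ 8 = 32 * I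

/-- VALG: the valuations at the points of odd order -/
def S_VALG : Prop := ∀ (L : PeriodPair) (Ω : ℂ), GLat L Ω →
  ∀ (Γ : Type) [LinearOrderedCommGroupWithZero Γ] (v : Valuation ℂ Γ), v 2 < 1 →
  ∀ m : ℂ, m ^ 8 = 32 * I → ∀ s : ℂ, s ^ 2 = 1 → ∀ P : ℂ, OT L P →
    v ((KG s L Ω (dz Ω + P) + KG s L Ω (dz Ω - P)) / m) < 1 ∧
    v ((1 + I) * KG s L Ω (dz Ω - P) / m) < 1

/-! ### the places -/

/-- MING: the equation is minimal -/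
def S_MING : Prop := ∀ (K : Type) [Field K] [NumberField K] (e : ZI ≃+* 𝓞 K) (u : ZI), U3 u → ∀
  (S : Finset GaussianInt), (∀ l ∈ S, OP l) → ∀ v : HeightOneSpectrum (𝓞 K),
  WeierstrassCurve.IsMinimal (v.adicCompletionIntegers K)
    (Pool.Agent.Y715.Z.q4 (algebraMap K (v.adicCompletion K) (em0 e (BG u S))))

open Classical in
/-- the Tamagawa numbers -/
noncomputable def cG {K : Type} [Field K] [NumberField K] (e : ZI ≃+* 𝓞 K) (S : Finset GaussianInt)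
    (v : HeightOneSpectrum (𝓞 K)) : ℕ := if e (pi1 * ∏ l ∈ S, l) ∈ v.asIdeal then 2 else 1

open scoped Classical in
/-- TAMG: the Tamagawa numbers -/
def S_TAMG : Prop := ∀ (K : Type) [Field K] [NumberField K] (e : ZI ≃+* 𝓞 K) (u : ZI), U3 u → ∀
  (S : Finset GaussianInt), (∀ l ∈ S, OP l) → ∀ v : HeightOneSpectrum (𝓞 K),
  ∃ H : AddSubgroup
      (Pool.Agent.Y715.Z.q4 (algebraMap K (v.adicCompletion K) (em0 e (BG u S)))).toAffine.Point,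
    (∀ P, P ∈ H ↔ NonsingRed (vv v)
      (Pool.Agent.Y715.Z.q4 (algebraMap K (v.adicCompletion K) (em0 e (BG u S)))) P) ∧
    H.index = cG e S v

/-- TAPG: their product -/
def S_TAPG : Prop := ∀ (K : Type) [Field K] [NumberField K] (e : ZI ≃+* 𝓞 K)
  (S : Finset GaussianInt), (∀ l ∈ S, OP l) →
  {v : HeightOneSpectrum (𝓞 K) | cG e S v ≠ 1}.Finite ∧
    ∏ᶠ v : HeightOneSpectrum (𝓞 K), cG e S v = 2 * 2 ^ S.card

/-- TORG: the order of the torsion subgroup is twice an odd number -/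
def S_TORG : Prop := ∀ (K : Type) [Field K] [NumberField K] [DecidableEq K] (e : ZI ≃+* 𝓞 K)
  (u : ZI), U3 u → ∀ (S : Finset GaussianInt), (∀ l ∈ S, OP l) → ∃ t : ℕ, Odd t ∧
    Nat.card (AddCommGroup.torsion
      (Pool.Agent.Y715.Z.q4 (em0 e (BG u S)) : WeierstrassCurve K).toAffine.Point) = 2 * t

/-! ### the descent -/

/-- the quadratic symbol of `1 + i` -/
noncomputable def gR (p : GaussianInt) : ZMod 2 := if leg p pi1 = -1 then 1 else 0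

/-- SHAG: the descent -/
def S_SHAG : Prop := ∀ (K : Type) [Field K] [NumberField K] (e : ZI ≃+* 𝓞 K) (u : ZI), U3 u → ∀
  (S : Finset GaussianInt), (∀ l ∈ S, OP l) →
  (∀ t : GaussianInt → ZMod 2, (∀ v ∈ S, gR v * t v + ∑ w ∈ S, gA v w * (t v + t w) = 0) →
    ∀ v ∈ S, t v = 0) →
  ∀ W : WeierstrassCurve K, IsT W 0 (em0 e (BG u S)) →
    Module.finrank ℤ (Pool.Agent.Y682.MP W) = 0 ∧
      ∀ x : Pool.Agent.TH841.NF.D.Sha W, 2 • x = 0 → x = 0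

/-- CNVG: the converse -/
def S_CNVG : Prop := ∀ (K : Type) [Field K] [NumberField K] (e : ZI ≃+* 𝓞 K) (u : ZI), U3 u → ∀
  (S : Finset GaussianInt), (∀ l ∈ S, OP l) → (Mt gA gR S).det = 0 →
  Finite (Pool.Agent.Y715.Z.q4 (em0 e (BG u S)) : WeierstrassCurve K).toAffine.Point →
  (∀ x : Pool.Agent.TH841.NF.D.Sha (Pool.Agent.Y715.Z.q4 (em0 e (BG u S)) : WeierstrassCurve K),
    2 • x = 0 → x = 0) → False

/-! ### the L-series -/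

/-- LSG: the L-series -/
def S_LSG : Prop := ∀ (K : Type) [Field K] [NumberField K] (e : ZI ≃+* 𝓞 K) (u : ZI), U3 u → ∀
  (S : Finset GaussianInt), (∀ l ∈ S, OP l) → ∀ (c : ZI) (X : ZI →* ℂ), HC c X → X pi1 = 0 →
  (∀ z : ZI, PP z → z ∣ ∏ l ∈ S, l → X z = 0) →
  (∀ z : ZI, PP z → ¬ z ∣ ∏ l ∈ S, l →
    X z = (starRingEnd ℂ) (tc (Pool.Agent.Y699.q4 z (-BG u S)))) →
  ∀ s : ℂ, 3 / 2 < s.re →
    LSeriesSummable ((fun n : ℤ => (n : ℂ)) ∘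
      (Pool.Agent.Y715.Z.q4 (em0 e (BG u S)) : WeierstrassCurve K).LFunction) s ∧
    LG X s = (Pool.Agent.Y715.Z.q4 (em0 e (BG u S)) : WeierstrassCurve K).LSeries s

/-- VALZG: the valuation of the predicted order of Sha -/
def S_VALZG : Prop := ∀ (Γ : Type) [LinearOrderedCommGroupWithZero Γ] (v : Valuation ℂ Γ), v 2 < 1 →
  ∀ (L : PeriodPair) (Ω : ℂ), GLat L Ω → ∀ m : ℂ, m ^ 8 = 32 * I → ∀ (n : ℕ) (M : ℂ) (c : Prop),
  (∀ w : Valuation ℂ Γ, w 2 < 1 → w (M / (Ω / tc two2 * m * (1 + I) ^ n)) ≤ 1 ∧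
    (w (M / (Ω / tc two2 * m * (1 + I) ^ n)) = 1 ↔ c)) →
  ∀ (D u : ZI), D.norm % 2 = 1 → U3 u → ∀ δ : ℂ, ‖δ‖ = ‖tc (u * D)‖ → ∀ Λ : PeriodPair,
  Λ.g₂ = -4 * δ → Λ.g₃ = 0 → ∀ t : ℕ, Odd t →
    v (M * (starRingEnd ℂ) M * 2 * ((2 * t : ℕ) : ℂ) ^ 2 /
      (((2 * |((starRingEnd ℂ) Λ.ω₁ * Λ.ω₂).im| : ℝ) : ℂ) * ((2 * 2 ^ n : ℕ) : ℂ))) ≤ 1 ∧
    (v (M * (starRingEnd ℂ) M * 2 * ((2 * t : ℕ) : ℂ) ^ 2 /
      (((2 * |((starRingEnd ℂ) Λ.ω₁ * Λ.ω₂).im| : ℝ) : ℂ) * ((2 * 2 ^ n : ℕ) : ℂ))) = 1 ↔ c)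

end Pool.Agent.E8helper75.F3
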