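import Pool.Agent.E8helper75.F3.Rec
import Pool.Agent.E8helper75.F3.Stm
import Pool.Agent.E8helper75.QK.Lae
import Pool.Agent.E8helper75.QK.Anx
import Pool.Agent.E8helper97.Q2.M0a

/-!
The analytic input: the Hecke character, its central value and the criterion.
-/

set_option autoImplicit false
set_option linter.unusedSectionVars false

open Filter Complex
open scoped Topology PeriodPair
open H667R3 hiding sq
open Pool.Agent.TH936.CM Pool.Agent.W192.HK

namespace Pool.Agent.E8helper75.F3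

open Pool.Agent.Y699
open Pool.Agent.Y699.Ff (MM dg)
open Pool.Agent.E8helper21.Q2
open Pool.Agent.E8helper75.QI (cT)
open H385 (ZI RQ im1 nrm)
open Pool.Agent.H304R3.HK (tc HC LH)
open Pool.Agent.W164.RC (tc_mul tc_star two2 prim_iff_dvd unit_norm unit_cases)
open Pool.Agent.Y697.MQ (OP gA gθ leg)
open Pool.Agent.Y697.PP (Mt)
open Pool.Agent.R428.G (toPP leg_qr)
open Pool.Agent.E8helper75.QK (cg_iff)

lemma gR_eq (hTHR : S_THR) (hSUP : S_SUP3) {l : ZI} (hl : PP l) : gR l = wr l := by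
  have h1 := hSUP l hl
  have h2 := q4_sq hl pi1
  have h3 := hTHR.1.sqr l hl.prm
  unfold th0 at h3
  have h4 : rh l ^ 2 = sz (wr l) := by
    have h5 := congrArg star h3
    rw [star_pow, star_star] at h5
    rw [h5]
    generalize wr l = x
    revert x
    decide
  rw [h1, h4] at h2
  unfold gR
  rw [leg_qr]
  have hnd : ¬ l ∣ pi1 := Pool.Agent.E8helper21.QT.pi1_ndvd hl
  rcases qr_cases hnd with h6 | h6
  · rw [h6] at h2 ⊢
    rw [if_neg (by norm_num)]
    revert h2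
    generalize wr l = x
    revert x
    decide
  · rw [h6] at h2 ⊢
    rw [if_pos rfl]
    revert h2
    generalize wr l = x
    revert x
    decide

/-- the matrix of the graph -/
theorem det_MtR (hTHR : S_THR) (hSUP : S_SUP3) {S : Finset GaussianInt} (hS : ∀ l ∈ S, OP l) :
    (MM (wq (fun l : {l // l ∈ S} => (l : ZI))) (em (fun l : {l // l ∈ S} => (l : ZI)))
      Finset.univ Finset.univ).det = (Mt gA gR S).det := by
  classical
  have hp : PF (fun l : {l // l ∈ S} => (l : ZI)) :=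
    ⟨fun i => toPP (hS i.1 i.2), Subtype.val_injective⟩
  set w := wq (fun l : {l // l ∈ S} => (l : ZI)) with hw
  set e := em (fun l : {l // l ∈ S} => (l : ZI)) with he
  have he0 : ∀ v, e v v = 0 := em_self hp
  have hes : ∀ u v, e u v = e v u := em_symm hp
  congr 1
  ext v u
  have hA : ∀ a b : {l // l ∈ S}, gA (a : GaussianInt) (b : GaussianInt) = e a b := by
    intro a b
    rw [he]
    unfold gA Pool.Agent.Y699.em
    rw [leg_qr]
  have hθ : ∀ a : {l // l ∈ S}, gR (a : GaussianInt) = w a := fun a =>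
    gR_eq hTHR hSUP (hp.pp a)
  unfold MM Mt dg
  rw [if_pos (Finset.mem_univ u), if_pos (Finset.mem_univ v)]
  by_cases h : v = u
  · subst h
    rw [if_pos rfl, if_pos rfl, hθ v]
    congr 1
    have h3 : ∑ x ∈ S.erase (v : GaussianInt), gA (v : GaussianInt) x =
        ∑ x ∈ S, (if x = (v : GaussianInt) then 0 else gA (v : GaussianInt) x) := by
      rw [← Finset.add_sum_erase S _ v.2, if_pos rfl, zero_add]
      refine Finset.sum_congr rfl fun x hx => ?_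
      rw [if_neg (Finset.mem_erase.1 hx).1]
    rw [h3, ← Finset.sum_coe_sort S]
    refine Finset.sum_congr rfl fun x _ => ?_
    by_cases hx : x = v
    · rw [if_pos (by rw [hx]), hx, he0]
    · rw [if_neg (fun h' => hx (Subtype.ext h')), hA, hes]
  · rw [if_neg h, if_neg (fun h' => h h'.symm), hA]

theorem exists_XG (hTHR : S_THR) (hSUP : S_SUP3) (hLKR : S_LKR) (hVALG : S_VALG) (hDG : S_DG)
    (hHCR : S_HCR) (hLHR : S_LHR) (hCHR : S_CHR) {u : ZI} (hu : U3 u) {S : Finset GaussianInt}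
    (hS : ∀ l ∈ S, OP l) :
    ∃ (c : ZI) (X : ZI →* ℂ) (L : PeriodPair) (Ω m M : ℂ), HC c X ∧ X pi1 = 0 ∧
      (∀ z : ZI, PP z → z ∣ ∏ l ∈ S, l → X z = 0) ∧
      (∀ z : ZI, PP z → ¬ z ∣ ∏ l ∈ S, l →
        X z = (starRingEnd ℂ) (tc (Pool.Agent.Y699.q4 z (-BG u S)))) ∧
      GLat L Ω ∧ m ^ 8 = 32 * I ∧ LH X (1 / 2) = (starRingEnd ℂ) M ∧
      ∀ (Γ : Type) [LinearOrderedCommGroupWithZero Γ] (w : Valuation ℂ Γ), w 2 < 1 →
        w (M / (Ω / tc two2 * m * (1 + I) ^ S.card)) ≤ 1 ∧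
        (w (M / (Ω / tc two2 * m * (1 + I) ^ S.card)) = 1 ↔ (Mt gA gR S).det ≠ 0) := by
  classical
  obtain ⟨L, A, hA, hG⟩ := Pool.Agent.E8helper97.Q2.exists_real
  obtain ⟨d0, d1⟩ := hDG L A hA hG
  obtain ⟨H0, H1⟩ := hTHR
  set pr : {l // l ∈ S} → ZI := fun l => (l : ZI) with hpr
  have hp : PF pr := ⟨fun i => toPP (hS i.1 i.2), Subtype.val_injective⟩
  have hD : DD pr Finset.univ = ∏ l ∈ S, l := by
    unfold DD
    exact Finset.prod_coe_sort S (fun l => l)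
  have hcard : (Finset.univ : Finset {l // l ∈ S}).card = S.card := by
    rw [Finset.card_univ, Fintype.card_coe]
  have hB : -BG u S = -(u * DD pr Finset.univ) := by rw [hD]; rfl
  obtain ⟨hC1, hC2⟩ := hCHR H0 H1 {l // l ∈ S} pr hp Finset.univ
  have hdet := det_MtR ⟨H0, H1⟩ hSUP hS
  have hz : ∀ x : ZMod 2, x = 1 ↔ x ≠ 0 := by decide
  have hun : un pi1 = 0 := un_even (by decide)
  have h01 : ∀ a : ZMod 2, a = 0 ∨ a = 1 := by decide
  have hh : ((32 : ℂ) * I) ≠ 0 := mul_ne_zero (by norm_num) I_ne_zero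
  have key : ∀ {θ : ZI → ZI} (H : TR θ) {s : ℂ} (hs : s ^ 2 = 1)
      (h : ∀ z : ℂ, z ∉ L.lattice → Tendsto (fun δ : ℝ => ∑' b : ZI, tc (θ (1 + two2 * b)) *
        fd δ (z + A * tc b)) (𝓝[>] 0) (𝓝 (KG s L A z))) (hm : KG s L A (dz A) ^ 8 = 32 * I),
      ∃ M : ℂ, LH (XR H hp Finset.univ) (1 / 2) = (starRingEnd ℂ) M ∧
        ∀ (Γ : Type) [LinearOrderedCommGroupWithZero Γ] (w : Valuation ℂ Γ), w 2 < 1 →
        w (M / (A / tc two2 * KG s L A (dz A) * (1 + I) ^ S.card)) ≤ 1 ∧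
        (w (M / (A / tc two2 * KG s L A (dz A) * (1 + I) ^ S.card)) = 1 ↔
          (Mt gA gR S).det ≠ 0) := by
    intro θ H s hs h hm
    have hm0 : KG s L A (dz A) ≠ 0 := by
      intro h0
      rw [h0, zero_pow (by norm_num)] at hm
      exact hh hm.symm
    have hex : ∀ T : Finset {l // l ∈ S}, ∃ l, Tendsto (RS (cT θ pr T)) (𝓝[>] 0) (𝓝 l) :=
      fun T => by
      haveI := H385.he1_finite (DD_ne hp T)
      letI := Fintype.ofFinite (RQ (DD pr T))
      exact ⟨_, exists_MT H (fun _ => rfl) hG h hp T⟩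
    choose M hM using hex
    refine ⟨M Finset.univ, hLHR θ H _ pr hp _ _ (hM _), fun Γ _ w hw2 => ?_⟩
    have h1 := muT_cg H (fun _ => rfl) hG h hp hm0 hM (v := w) hw2
      (by rw [div_self hm0]; exact Cg.refl (by rw [map_one]))
      (fun P hP => hVALG L A hG Γ w hw2 _ hm s hs P hP) Finset.univ
    have h2 := cg_iff h1
    unfold mu at h2
    rw [hcard] at h2
    refine ⟨h2.1, h2.2.trans ?_⟩
    rw [hdet]
    exact hz _
  -- the two possible characters
  have fin0 : (∀ z : ZI, PP z → ¬ z ∣ ∏ l ∈ S, l → XR H0 hp Finset.univ z =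
      (starRingEnd ℂ) (tc (Pool.Agent.Y699.q4 z (-BG u S)))) → ∃ (c : ZI) (X : ZI →* ℂ) (L : PeriodPair) (Ω m M : ℂ), HC c X ∧ X pi1 = 0 ∧
      (∀ z : ZI, PP z → z ∣ ∏ l ∈ S, l → X z = 0) ∧
      (∀ z : ZI, PP z → ¬ z ∣ ∏ l ∈ S, l →
        X z = (starRingEnd ℂ) (tc (Pool.Agent.Y699.q4 z (-BG u S)))) ∧
      GLat L Ω ∧ m ^ 8 = 32 * I ∧ LH X (1 / 2) = (starRingEnd ℂ) M ∧
      ∀ (Γ : Type) [LinearOrderedCommGroupWithZero Γ] (w : Valuation ℂ Γ), w 2 < 1 →
        w (M / (Ω / tc two2 * m * (1 + I) ^ S.card)) ≤ 1 ∧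
        (w (M / (Ω / tc two2 * m * (1 + I) ^ S.card)) = 1 ↔ (Mt gA gR S).det ≠ 0) := by
    intro hc
    obtain ⟨M, hM1, hM2⟩ := key H0 (s := 1) (by norm_num)
      (fun z hz => (hLKR L A hG z hz).1) d0
    refine ⟨cnG pr Finset.univ, XR H0 hp Finset.univ, L, A, KG 1 L A (dz A), M,
      hHCR _ H0 _ pr hp _, ?_, ?_, hc, hG, d0, hM1, hM2⟩
    · rw [XR_apply, hun, tc_zero, zero_mul]
    · intro z hz hd
      rw [← hD] at hd
      exact (hC1 z hz hd).1
  have fin1 : (∀ z : ZI, PP z → ¬ z ∣ ∏ l ∈ S, l → XR H1 hp Finset.univ z =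
      (starRingEnd ℂ) (tc (Pool.Agent.Y699.q4 z (-BG u S)))) → ∃ (c : ZI) (X : ZI →* ℂ) (L : PeriodPair) (Ω m M : ℂ), HC c X ∧ X pi1 = 0 ∧
      (∀ z : ZI, PP z → z ∣ ∏ l ∈ S, l → X z = 0) ∧
      (∀ z : ZI, PP z → ¬ z ∣ ∏ l ∈ S, l →
        X z = (starRingEnd ℂ) (tc (Pool.Agent.Y699.q4 z (-BG u S)))) ∧
      GLat L Ω ∧ m ^ 8 = 32 * I ∧ LH X (1 / 2) = (starRingEnd ℂ) M ∧
      ∀ (Γ : Type) [LinearOrderedCommGroupWithZero Γ] (w : Valuation ℂ Γ), w 2 < 1 →
        w (M / (Ω / tc two2 * m * (1 + I) ^ S.card)) ≤ 1 ∧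
        (w (M / (Ω / tc two2 * m * (1 + I) ^ S.card)) = 1 ↔ (Mt gA gR S).det ≠ 0) := by
    intro hc
    obtain ⟨M, hM1, hM2⟩ := key H1 (s := -1) (by norm_num)
      (fun z hz => (hLKR L A hG z hz).2) d1
    refine ⟨cnG pr Finset.univ, XR H1 hp Finset.univ, L, A, KG (-1) L A (dz A), M,
      hHCR _ H1 _ pr hp _, ?_, ?_, hc, hG, d1, hM1, hM2⟩
    · rw [XR_apply, hun, tc_zero, zero_mul]
    · intro z hz hd
      rw [← hD] at hd
      exact (hC1 z hz hd).2
  rcases h01 (∑ i, Pool.Agent.Y699.wt pr i) with hw | hw <;> rcases hu with rfl | rfl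
  · exact fin1 fun z hz hd => by
      rw [← hD] at hd
      rw [hB]
      exact ((hC2 z hz hd).1 hw).1
  · exact fin0 fun z hz hd => by
      rw [← hD] at hd
      rw [hB]
      exact ((hC2 z hz hd).1 hw).2
  · exact fin0 fun z hz hd => by
      rw [← hD] at hd
      rw [hB]
      exact ((hC2 z hz hd).2 hw).1
  · exact fin1 fun z hz hd => by
      rw [← hD] at hd
      rw [hB]
      exact ((hC2 z hz hd).2 hw).2

end Pool.Agent.E8helper75.F3
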