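import Pool.Agent.E8helper75.QI.Bas

/-!
The curves `y² = x³ + u D x` over `ℚ(i)`, `u` an associate of `(1 + i)³`: the definitions.
-/

set_option autoImplicit false
set_option linter.unusedSectionVars false

open Filter Complex
open scoped Topology PeriodPair
open H667R3 hiding sq
open Pool.Agent.TH936.CM Pool.Agent.W192.HK

namespace Pool.Agent.E8helper75.F3

open Pool.Agent.Y699
open Pool.Agent.E8helper21.Q2
open H385 (ZI RQ im1 nrm)
open Pool.Agent.H304R3.HK (tc HC LH)
open Pool.Agent.W164.RC (tc_mul tc_star two2 prim_iff_dvd unit_norm unit_cases)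
open Pool.Agent.H304R2.EC.A1 (prim prim_mul prim_cancel prim_one prim_norm_odd prim_star eq_one_of_prim
  norm_def' re_mul' im_mul' eq_of_dvd prim_ne_zero exists_prim)

/-- `i ^ ((Re a - Im a - (Im a)² - 1) / 4)`, for primary `a` the quartic symbol `((1 + i) / a)` -/
def rh (a : ZI) : ZI := im1 ^ (((a.re - a.im - a.im ^ 2 - 1) / 4) % 4).toNat

/-- the first character at two -/
def th0 (a : ZI) : ZI := star (rh a)

/-- the second character at two -/
def th1 (a : ZI) : ZI := star (rh a) * x2 a ^ 2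

/-- for primary `a`: `1` if the quadratic symbol `((1 + i) / a)` is `-1` -/
def wr (a : ZI) : ZMod 2 := if (a.re - a.im - a.im ^ 2 - 1) % 8 = 4 then 1 else 0

/-- a character of the primary elements modulo `4 (2 + 2 i)` with values in the units -/
structure TR (θ : ZI → ZI) : Prop where
  nm : ∀ a, (θ a).norm = 1
  one : θ 1 = 1
  mul : ∀ a b, prim a → prim b → θ (a * b) = θ a * θ b
  per : ∀ a q, θ (a + two2 * (4 * q)) = θ a
  sqr : ∀ a, prim a → θ a ^ 2 = sz (wr a)

lemma TR.tcn {θ : ZI → ZI} (H : TR θ) (a : ZI) : ‖tc (θ a)‖ = 1 := unit_tc (H.nm a)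

variable {ι : Type} [DecidableEq ι] {pr : ι → ZI}

/-- the Hecke character -/
noncomputable def XR {θ : ZI → ZI} (H : TR θ) (hp : PF pr) (V : Finset ι) : ZI →* ℂ where
  toFun a := tc (un a) * (starRingEnd ℂ) (tc (θ (un a * a) * c4 pr V on1 (un a * a)))
  map_one' := by
    rw [un_prim prim_one, one_mul, H.one, c4_one hp, tc_one, mul_one, tc_one]
    simp
  map_mul' := by
    intro a b
    by_cases ha : a.norm % 2 = 1
    · by_cases hb : b.norm % 2 = 1
      · obtain ⟨u, hu⟩ := exists_Um ha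
        obtain ⟨w, hw⟩ := exists_Um hb
        have e : un (a * b) * (a * b) = (un a * a) * (un b * b) := by rw [un_mul]; ring
        have hu' : prim (un a * a) := by rw [un_eq hu]; exact hu.2
        have hw' : prim (un b * b) := by rw [un_eq hw]; exact hw.2
        rw [e, c4_mul hp, un_mul, H.mul _ _ hu' hw']
        simp only [tc_mul, map_mul]
        ring
      · rw [un_even hb, un_mul, un_even hb, mul_zero, tc_zero]
        ring
    · rw [un_even ha, un_mul, un_even ha, zero_mul, tc_zero]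
      ring

lemma XR_apply {θ : ZI → ZI} (H : TR θ) (hp : PF pr) (V : Finset ι) (a : ZI) :
    XR H hp V a = tc (un a) * (starRingEnd ℂ) (tc (θ (un a * a) * c4 pr V on1 (un a * a))) := rfl

lemma XR_prim {θ : ZI → ZI} (H : TR θ) (hp : PF pr) (V : Finset ι) {a : ZI} (ha : prim a) :
    XR H hp V a = (starRingEnd ℂ) (tc (θ a * c4 pr V on1 a)) := by
  rw [XR_apply, un_prim ha, tc_one, one_mul, one_mul]

/-- the conductor `4 (2 + 2 i) D` -/
noncomputable def cnG (pr : ι → ZI) (V : Finset ι) : ZI := two2 * 4 * DD pr V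

/-- the two values of `Kf` -/
noncomputable def KA (L : PeriodPair) (Ω z : ℂ) : ℂ := Kf L Ω (z / (1 + I))

/-- the two values of `Kf` -/
noncomputable def KB (L : PeriodPair) (Ω z : ℂ) : ℂ := Kf L Ω (z / (1 + I) + (1 - I) * Ω / 2)

/-- the functions with the characters `th0` (`s = 1`) and `th1` (`s = -1`) -/
noncomputable def KG (s : ℂ) (L : PeriodPair) (Ω z : ℂ) : ℂ :=
  (1 + I)⁻¹ * (KA L Ω z + s * I * KB L Ω z)

/-- the symmetric part of the square of `KG` -/
noncomputable def TG (L : PeriodPair) (Ω z : ℂ) : ℂ := (KA L Ω z ^ 2 - KB L Ω z ^ 2) / (2 * I)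

/-- the antisymmetric part of the square of `KG` -/
noncomputable def MG (L : PeriodPair) (Ω z : ℂ) : ℂ := KA L Ω z * KB L Ω z

lemma KG_sq {s : ℂ} (hs : s ^ 2 = 1) (L : PeriodPair) (Ω z : ℂ) :
    KG s L Ω z ^ 2 = TG L Ω z + s * MG L Ω z := by
  unfold KG TG MG
  have h1 : (1 + I : ℂ) ≠ 0 := one_I_ne
  have h2 : (2 * I : ℂ) ≠ 0 := mul_ne_zero two_ne_zero I_ne_zero
  have h3 : (1 + I : ℂ) ^ 2 = 2 * I := by linear_combination I_sq
  rw [mul_pow, inv_pow, h3]
  field_simp
  linear_combination (KB L Ω z ^ 2 * I ^ 2) * hs + (KB L Ω z ^ 2) * I_sq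

/-- one of the two associates `(1 + i)³` and `-(1 + i)³` -/
def U3 (u : GaussianInt) : Prop := u = ⟨-2, 2⟩ ∨ u = ⟨2, -2⟩

/-- the coefficient `u D` -/
def BG (u : GaussianInt) (S : Finset GaussianInt) : GaussianInt := u * ∏ l ∈ S, l

end Pool.Agent.E8helper75.F3
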