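import Pool.Agent.E8helper75.F3.Crit
import Pool.Agent.E8helper75.F3D.Fin

/-!
The count of the odd squarefree Gaussian integers with a nondegenerate matrix.
-/

set_option autoImplicit false

namespace Pool.Agent.E8helper75.F3.C

open Pool.Agent.Y697.MQ (OP leg ci gA leg_cases leg_eq_zero Pr_iff Pr)
open Pool.Agent.Y697.PP (Mt SS mem_SS NS prod_inj nm nm_mul)
open Pool.Agent.R428.G
open Pool.Agent.E8helper75.F3

/-- the units -/
def Us : Finset GaussianInt := {1, -1, ⟨0, 1⟩, ⟨0, -1⟩}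

lemma Us_card : Us.card = 4 := by decide

lemma mem_Us {w : GaussianInt} : w ∈ Us ↔ IsUnit w := by
  constructor
  · intro h
    unfold Us at h
    simp only [Finset.mem_insert, Finset.mem_singleton] at h
    rcases h with rfl | rfl | rfl | rfl
    · exact isUnit_one
    · exact isUnit_one.neg
    · exact IsUnit.of_mul_eq_one (⟨0, -1⟩ : GaussianInt) (by decide)
    · exact IsUnit.of_mul_eq_one (⟨0, 1⟩ : GaussianInt) (by decide)
  · intro h
    have h1 : w.norm = 1 := (Zsqrtd.norm_eq_one_iff' (by norm_num) w).2 h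
    rw [Pool.Agent.H304R2.EC.A1.norm_def'] at h1
    have h2 : w.re ≤ 1 ∧ -1 ≤ w.re ∧ w.im ≤ 1 ∧ -1 ≤ w.im := by
      refine ⟨?_, ?_, ?_, ?_⟩ <;> nlinarith [sq_nonneg w.re, sq_nonneg w.im]
    obtain ⟨a, b⟩ := w
    simp only at h1 h2
    have ha : a = -1 ∨ a = 0 ∨ a = 1 := by omega
    have hb : b = -1 ∨ b = 0 ∨ b = 1 := by omega
    rcases ha with rfl | rfl | rfl <;> rcases hb with rfl | rfl | rfl <;> first
      | decide
      | exact absurd h1 (by norm_num)

lemma coef_Us {w : GaussianInt} (hw : w ∈ Us) : Coef (⟨-2, 2⟩ * w) := by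
  unfold Us at hw
  simp only [Finset.mem_insert, Finset.mem_singleton] at hw
  unfold Coef
  rcases hw with rfl | rfl | rfl | rfl
  · exact Or.inl (by decide)
  · exact Or.inr (Or.inl (by decide))
  · exact Or.inr (Or.inr (Or.inl (by decide)))
  · exact Or.inr (Or.inr (Or.inr (by decide)))

/-- every odd squarefree Gaussian integer is a unit times a product of distinct primary primes -/
theorem exists_wS {C : GaussianInt} (hC : ¬ (⟨1, 1⟩ : GaussianInt) ∣ C) (hsq : Squarefree C) :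
    ∃ (w : GaussianInt) (S : Finset GaussianInt), IsUnit w ∧ (∀ p ∈ S, OP p) ∧ C = w * ∏ p ∈ S, p := by
  classical
  have hodd : C.norm % 2 = 1 := by
    rw [Pool.Agent.H304R2.EC.A1.norm_def']
    by_contra hc
    apply hC
    have h0 : (C.re + C.im) % 2 = 0 := by
      rcases Int.emod_two_eq_zero_or_one C.re with h1 | h1 <;>
        rcases Int.emod_two_eq_zero_or_one C.im with h2 | h2
      · omega
      · exfalso
        apply hc
        obtain ⟨a, ha⟩ : ∃ a, C.re = 2 * a := ⟨C.re / 2, by omega⟩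
        obtain ⟨b, hb⟩ : ∃ b, C.im = 2 * b + 1 := ⟨C.im / 2, by omega⟩
        rw [ha, hb]
        ring_nf
        omega
      · exfalso
        apply hc
        obtain ⟨a, ha⟩ : ∃ a, C.re = 2 * a + 1 := ⟨C.re / 2, by omega⟩
        obtain ⟨b, hb⟩ : ∃ b, C.im = 2 * b := ⟨C.im / 2, by omega⟩
        rw [ha, hb]
        ring_nf
        omega
      · omega
    refine ⟨⟨(C.re + C.im) / 2, (C.im - C.re) / 2⟩, ?_⟩
    ext
    · rw [Zsqrtd.re_mul]
      simp only
      omega
    · rw [Zsqrtd.im_mul]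
      simp only
      omega
  obtain ⟨u, hu1, hu2⟩ := Pool.Agent.Y699.exists_Um hodd
  have huu := Pool.Agent.Y699.unit_mul_star hu1
  have hus : IsUnit (star u) := IsUnit.of_mul_eq_one u (by rw [mul_comm]; exact huu)
  have hC1 : C = star u * (u * C) := by
    rw [← mul_assoc, mul_comm (star u), huu, one_mul]
  obtain ⟨T, hT, e, he, hDe⟩ := Pool.Agent.Y697.MQ.exists_ker2 (u * C)
    ((Pool.Agent.Y697.MQ.prim_iff_Pr _).1 hu2)
  have he1 : e = 1 := by
    apply he.unit
    apply hsq e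
    rw [hC1, hDe, pow_two]
    exact Dvd.dvd.mul_left (dvd_mul_left _ _) _
  rw [he1, one_pow, mul_one] at hDe
  exact ⟨star u, T, hus, fun p hp => (hT p hp).1, by rw [← hDe]; exact hC1⟩

/-- the product is odd and squarefree -/
theorem wS_odd {w : GaussianInt} (hw : IsUnit w) {S : Finset GaussianInt} (hS : ∀ p ∈ S, OP p) :
    ¬ (⟨1, 1⟩ : GaussianInt) ∣ w * ∏ p ∈ S, p ∧ Squarefree (w * ∏ p ∈ S, p) := by
  constructor
  · intro h
    have h1 : (⟨1, 1⟩ : GaussianInt) ∣ ∏ p ∈ S, p := (hw.dvd_mul_left).1 h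
    obtain ⟨c, hc⟩ := h1
    have h2 := prod_norm_odd hS
    rw [hc, Zsqrtd.norm_mul] at h2
    have h3 : (⟨1, 1⟩ : GaussianInt).norm = 2 := by decide
    rw [h3] at h2
    omega
  · obtain ⟨v, rfl⟩ := hw
    exact (Associated.squarefree_iff (associated_unit_mul_left _ _ v.isUnit)).2 (sqf_prod hS)

theorem wS_norm {w : GaussianInt} (hw : IsUnit w) {S : Finset GaussianInt} :
    (w * ∏ p ∈ S, p).norm.natAbs = NS S := by
  obtain ⟨v, rfl⟩ := hw
  rw [Zsqrtd.norm_mul, Int.natAbs_mul]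
  have h1 : (v : GaussianInt).norm = 1 := (Zsqrtd.norm_eq_one_iff' (by norm_num) _).2 v.isUnit
  rw [h1]
  unfold NS nm
  simp

theorem wS_inj {w w' : GaussianInt} (hw : IsUnit w) (hw' : IsUnit w') {S S' : Finset GaussianInt}
    (hS : ∀ p ∈ S, OP p) (hS' : ∀ p ∈ S', OP p) (h : w * ∏ p ∈ S, p = w' * ∏ p ∈ S', p) :
    w = w' ∧ S = S' := by
  have hp := (Pool.Agent.Y697.MQ.prim_iff_Pr _).2 (Pool.Agent.Y697.MQ.Pr_prod fun x hx => (hS x hx).pm)
  have hp' := (Pool.Agent.Y697.MQ.prim_iff_Pr _).2 (Pool.Agent.Y697.MQ.Pr_prod fun x hx => (hS' x hx).pm)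
  have n1 : w.norm = 1 := (Zsqrtd.norm_eq_one_iff' (by norm_num) _).2 hw
  have n1' : w'.norm = 1 := (Zsqrtd.norm_eq_one_iff' (by norm_num) _).2 hw'
  have s1 := Pool.Agent.Y699.unit_mul_star n1
  have s1' := Pool.Agent.Y699.unit_mul_star n1'
  have c1 : Pool.Agent.Y699.Um (w * ∏ p ∈ S, p) (star w) := by
    refine ⟨by rw [Zsqrtd.norm_conj, n1], ?_⟩
    rw [← mul_assoc, mul_comm (star w), s1, one_mul]
    exact hp
  have c2 : Pool.Agent.Y699.Um (w * ∏ p ∈ S, p) (star w') := by
    refine ⟨by rw [Zsqrtd.norm_conj, n1'], ?_⟩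
    rw [h, ← mul_assoc, mul_comm (star w'), s1', one_mul]
    exact hp'
  have e1 : star w = star w' := c1.unique c2
  have e2 : w = w' := star_injective e1
  refine ⟨e2, prod_inj hS hS' ?_⟩
  rw [← e2] at h
  exact hw.mul_left_cancel h

/-! ### the matrices -/

lemma gR_gW (hTHR : S_THR) (hSUP : S_SUP3) {l : GaussianInt} (hl : OP l) :
    gR l = Pool.Agent.E8helper75.F3D.gW l := by
  rw [gR_eq hTHR hSUP (toPP hl)]
  unfold wr Pool.Agent.E8helper75.F3D.gW Pool.Agent.E8helper75.F3D.cr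
  have hm := hl.pm
  rw [if_pos hm]
  obtain ⟨a, ha⟩ : ∃ a, l.im = 2 * a := ⟨l.im / 2, by unfold Pr at hm; omega⟩
  obtain ⟨b, hb⟩ := Int.even_mul_succ_self a
  have e1 : l.re - l.im - l.im ^ 2 - 1 = l.re + l.im - 1 - 8 * b := by
    rw [ha]
    linear_combination (-4) * hb
  rw [e1]
  rcases Pool.Agent.E8helper75.F3D.Pr_sum hm with h | h
  · rw [if_neg (by omega), if_pos h, if_neg (by norm_num)]
  · rw [if_pos (by omega), if_neg (show ¬ (l.re + l.im) % 8 = 1 by omega), if_pos rfl]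

lemma mat_gW (hTHR : S_THR) (hSUP : S_SUP3) {u : GaussianInt} (hu : U3 u) {S : Finset GaussianInt}
    (hS : ∀ l ∈ S, OP l) : mat u S = Mt gA Pool.Agent.E8helper75.F3D.gW S := by
  rw [mat_eq hu hS]
  ext p q
  unfold Mt
  by_cases h : q = p
  · rw [if_pos h, if_pos h, gR_gW hTHR hSUP (hS p p.2)]
  · rw [if_neg h, if_neg h]

open scoped Classical in
theorem good_card (hTHR : S_THR) (hSUP : S_SUP3) {u : GaussianInt} (hu : Coef u) (X : ℕ) :
    ((SS X).filter fun S => (mat u S).det ≠ 0).card =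
      ((SS X).filter fun S => Pool.Agent.E8helper75.F3D.Dt S).card := by
  have key : ∀ {u : GaussianInt}, U3 u → ((SS X).filter fun S => (mat u S).det ≠ 0).card =
      ((SS X).filter fun S => Pool.Agent.E8helper75.F3D.Dt S).card := by
    intro u hu
    congr 1
    refine Finset.filter_congr fun S hS => ?_
    rw [mem_SS] at hS
    rw [mat_gW hTHR hSUP hu hS.1]
    rfl
  have hcs : ∀ S, S ∈ SS X → cS S ∈ SS X := by
    intro S hS
    rw [mem_SS] at hS ⊢
    refine ⟨?_, ?_⟩
    · intro l hl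
      have h2 := hS.1 _ (mem_cS.1 hl)
      rw [← op_iff] at h2 ⊢
      refine ⟨?_, ?_⟩
      · have := prime_star h2.1
        rwa [star_star] at this
      · have := primary_star h2.2
        rwa [star_star] at this
    · unfold NS nm
      rw [prod_cS, Zsqrtd.norm_conj]
      exact hS.2
  have hcc : ∀ S : Finset GaussianInt, cS (cS S) = S := by
    intro S
    ext p
    rw [mem_cS, mem_cS, star_star]
  have key2 : ∀ {u : GaussianInt}, U3 (star u) → ((SS X).filter fun S => (mat u S).det ≠ 0).card =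
      ((SS X).filter fun S => Pool.Agent.E8helper75.F3D.Dt S).card := by
    intro u hu
    rw [← key hu]
    refine Finset.card_nbij' cS cS ?_ ?_ ?_ ?_
    · intro S hS
      rw [Finset.mem_coe, Finset.mem_filter] at hS ⊢
      refine ⟨hcs S hS.1, ?_⟩
      rw [det_cS]
      exact hS.2
    · intro S hS
      rw [Finset.mem_coe, Finset.mem_filter] at hS ⊢
      refine ⟨hcs S hS.1, ?_⟩
      have := det_cS (star u) S
      rw [star_star] at this
      rw [this]
      exact hS.2
    · intro S _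
      exact hcc S
    · intro S _
      exact hcc S
  rcases hu with h | h | h | h
  · exact key (Or.inl h)
  · exact key (Or.inr h)
  · exact key2 (Or.inl (by rw [h]; decide))
  · exact key2 (Or.inr (by rw [h]; decide))

end Pool.Agent.E8helper75.F3.C
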