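import Pool.Agent.E8helper75.F3.Bas
import Pool.Agent.E8helper75.Q2.Gr

/-!
The limits and the recursion for a general character at two.
-/

set_option autoImplicit false
set_option linter.unusedSectionVars false

open Filter Complex
open scoped Topology PeriodPair
open H667R3 hiding sq
open Pool.Agent.TH936.CM Pool.Agent.W192.HK

namespace Pool.Agent.E8helper75.F3

open Pool.Agent.Y699
open Pool.Agent.E8helper21.Q2
open Pool.Agent.E8helper75.QI (cT)
open H385 (ZI RQ im1 nrm)
open Pool.Agent.H304R3.HK (tc HC LH)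
open Pool.Agent.W164.RC (tc_mul tc_star two2 prim_iff_dvd unit_norm unit_cases)
open Pool.Agent.H304R2.EC.A1 (prim prim_mul prim_cancel prim_one prim_norm_odd prim_star eq_one_of_prim
  norm_def' re_mul' im_mul' eq_of_dvd prim_ne_zero exists_prim)

lemma cop_four {D : ZI} (hD : prim D) : IsCoprime (4 : ZI) D := by
  have h := cop_two2 hD
  have h1 := h.mul_left h
  have e : two2 * two2 = 4 * ⟨0, 2⟩ := by decide
  rw [e] at h1
  exact h1.of_mul_left_left

/-- division with remainder by `D`, with multiples of `4` as the remainders -/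
noncomputable def prt4 {D : ZI} (hD : prim D) : RQ D × ZI ≃ ZI :=
  Equiv.ofBijective (fun p => 4 * p.1.out + D * p.2) ⟨by
    rintro ⟨a, s⟩ ⟨b, t⟩ hab
    have h0 : 4 * a.out + D * s = 4 * b.out + D * t := hab
    have h1 : D ∣ 4 * (a.out - b.out) := ⟨t - s, by linear_combination h0⟩
    have h2 : D ∣ a.out - b.out := (cop_four hD).symm.dvd_of_dvd_mul_left h1
    have h3 : a = b := by
      rw [← Ideal.Quotient.mk_out a, ← Ideal.Quotient.mk_out b, Ideal.Quotient.eq,
        Ideal.mem_span_singleton]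
      exact h2
    subst h3
    have h4 : D * s = D * t := by linear_combination h0
    rw [mul_left_cancel₀ (prim_ne_zero hD) h4], by
    intro t
    obtain ⟨u, w, huw⟩ := cop_four hD
    set q : RQ D := Ideal.Quotient.mk (Ideal.span {D}) (u * t) with hq
    obtain ⟨c, hc⟩ : D ∣ q.out - u * t := by
      rw [← Ideal.mem_span_singleton, ← Ideal.Quotient.eq, Ideal.Quotient.mk_out]
    refine ⟨(q, w * t - 4 * c), ?_⟩
    show 4 * q.out + D * (w * t - 4 * c) = t
    linear_combination 4 * hc + t * huw⟩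

lemma prt4_apply {D : ZI} (hD : prim D) (p : RQ D × ZI) :
    prt4 hD p = 4 * p.1.out + D * p.2 := rfl

/-- the weights -/
def wq {ι : Type} (pr : ι → ZI) (j : ι) : ZMod 2 := wr (pr j)

/-- **the limit** -/
theorem limT {L : PeriodPair} {Ω : ℂ} {θ : ZI → ZI} (H : TR θ) {KT : ℂ → ℂ} {χ : ZI → ℂ}
    (hχ : ∀ b, tc (θ (1 + two2 * b)) = χ b) (hG : GLat L Ω)
    (h : ∀ z : ℂ, z ∉ L.lattice → Tendsto (fun δ : ℝ => ∑' b : ZI, χ b * fd δ (z + Ω * tc b))
      (𝓝[>] 0) (𝓝 (KT z)))
    {D : ZI} (hD : prim D) [Fintype (RQ D)] (F : ZI → ℂ) (hper : ∀ a b, D ∣ a - b → F a = F b) :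
    Tendsto (RS (open Classical in fun a => if prim a then tc (θ a) * F a else 0)) (𝓝[>] 0)
    (𝓝 (tc (θ D) * Ω / (tc D * tc two2) *
      ∑ q : RQ D, F (two2 * (4 * q.out)) * KT (dz Ω + zq Ω D (4 * q.out)))) := by
  classical
  have hD0 : D ≠ 0 := prim_ne_zero hD
  have hDc := tc_ne hD0
  have h2c := tc_ne two2_ne
  have hΩ := hG.lat.ne
  set f : ZI → ℂ := fun a => if prim a then tc (θ a) * F a else 0 with hf
  set c : ℂ := tc D * tc two2 / Ω with hc
  have hc0 : c ≠ 0 := div_ne_zero (mul_ne_zero hDc h2c) hΩ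
  have hcn : 0 < Complex.normSq c := Complex.normSq_pos.2 hc0
  have hinj : Function.Injective (fun t : ZI => D + two2 * t) := by
    intro a b hab
    have h1 : D + two2 * a = D + two2 * b := hab
    exact mul_left_cancel₀ two2_ne (by linear_combination h1 : two2 * a = two2 * b)
  -- bounded
  have hFb : ∃ C : ℝ, ∀ a, ‖f a‖ ≤ C := by
    refine ⟨∑ q : RQ D, ‖F q.out‖, fun a => ?_⟩
    have h1 : F a = F (Ideal.Quotient.mk (Ideal.span {D}) a).out := by
      apply hper
      rw [← Ideal.mem_span_singleton, ← Ideal.Quotient.eq, Ideal.Quotient.mk_out]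
    rw [hf]
    show ‖(if prim a then tc (θ a) * F a else 0)‖ ≤ _
    split_ifs
    · rw [norm_mul, H.tcn, one_mul, h1]
      exact Finset.single_le_sum (f := fun q : RQ D => ‖F q.out‖) (fun _ _ => norm_nonneg _)
        (Finset.mem_univ _)
    · rw [norm_zero]
      exact Finset.sum_nonneg fun _ _ => norm_nonneg _
  obtain ⟨C, hC⟩ := hFb
  have hterm : ∀ p : RQ D × ZI, f (D + two2 * prt4 hD p) =
      tc (θ D) * F (two2 * (4 * p.1.out)) * χ p.2 := by
    rintro ⟨q, b⟩
    rw [prt4_apply]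
    have e1 : D + two2 * (4 * q.out + D * b) = D * (1 + two2 * b) + two2 * (4 * q.out) := by
      ring
    have s1 := hχ b
    have s2 := (x2_shift b).2
    have hp : prim (D + two2 * (4 * q.out + D * b)) := by
      rw [prim_iff_dvd]
      have h2 := (prim_iff_dvd _).1 hD
      have e : D + two2 * (4 * q.out + D * b) - 1 = (D - 1) + two2 * (4 * q.out + D * b) := by
        ring
      rw [e]
      exact dvd_add h2 (dvd_mul_right _ _)
    rw [hf]
    show (if prim (D + two2 * (4 * q.out + D * b)) then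
      tc (θ (D + two2 * (4 * q.out + D * b))) * F (D + two2 * (4 * q.out + D * b)) else 0) = _
    rw [if_pos hp]
    have e2 : F (D + two2 * (4 * q.out + D * b)) = F (two2 * (4 * q.out)) := by
      apply hper
      exact ⟨1 + two2 * b, by ring⟩
    rw [e2, e1, H.per, H.mul _ _ hD s2, tc_mul, s1]
    ring
  have e1 : ∀ δ : ℝ, RS f δ = ∑' t : ZI, f (D + two2 * t) * fd δ (tc (D + two2 * t)) := by
    intro δ
    unfold RS
    rw [← hinj.tsum_eq]
    intro a ha
    rw [Function.mem_support] at ha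
    by_contra hcc
    apply ha
    have : f a = 0 := by
      rw [hf]
      show (if prim a then tc (θ a) * F a else 0) = 0
      rw [if_neg]
      intro h1
      apply hcc
      have h3 := (prim_iff_dvd _).1 h1
      have h4 := (prim_iff_dvd _).1 hD
      obtain ⟨c, hc'⟩ := dvd_sub h3 h4
      exact ⟨c, by
        show D + two2 * c = a
        rw [← hc']
        ring⟩
    rw [this, zero_mul]
  have key : ∀ δ : ℝ, 0 < δ → RS f δ = ∑ q : RQ D, tc (θ D) * F (two2 * (4 * q.out)) * c⁻¹ *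
      ∑' b : ZI, χ b * fd (δ * Complex.normSq c) (dz Ω + zq Ω D (4 * q.out) + Ω * tc b) := by
    intro δ hδ
    have hs1 : Summable (fun t : ZI => f (D + two2 * t) * fd δ (tc (D + two2 * t))) :=
      (summ_bd hG.lat hδ hC).comp_injective hinj
    have hs2 : Summable (fun p : RQ D × ZI =>
        f (D + two2 * prt4 hD p) * fd δ (tc (D + two2 * prt4 hD p))) :=
      ((prt4 hD).summable_iff (f := fun t => f (D + two2 * t) * fd δ (tc (D + two2 * t)))).2 hs1
    rw [e1, ← (prt4 hD).tsum_eq, hs2.tsum_prod' (fun q => hs2.prod_factor q), tsum_fintype]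
    refine Finset.sum_congr (by ext; simp) fun q _ => ?_
    rw [← tsum_mul_left]
    refine tsum_congr fun b => ?_
    rw [hterm (q, b)]
    have e3 : tc (D + two2 * prt4 hD (q, b)) =
        c * (dz Ω + zq Ω D (4 * q.out) + Ω * tc b) := by
      rw [prt4_apply, tc_add, tc_mul, tc_add, tc_mul, tc_mul, dz_eq, tc_one, hc]
      unfold zq
      rw [tc_mul]
      field_simp
      ring
    rw [e3, fd_mul]
    ring
  have hlim : Tendsto (fun δ : ℝ => ∑ q : RQ D, tc (θ D) * F (two2 * (4 * q.out)) * c⁻¹ *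
      ∑' b : ZI, χ b * fd (δ * Complex.normSq c) (dz Ω + zq Ω D (4 * q.out) + Ω * tc b))
      (𝓝[>] 0) (𝓝 (∑ q : RQ D, tc (θ D) * F (two2 * (4 * q.out)) * c⁻¹ *
        KT (dz Ω + zq Ω D (4 * q.out)))) := by
    refine tendsto_finsetSum Finset.univ fun q _ => ?_
    refine Tendsto.const_mul _ ?_
    exact tendsto_scale (h _ (dz_add hG hD (4 * q.out))) hcn
  have e5 : tc (θ D) * Ω / (tc D * tc two2) *
      ∑ q : RQ D, F (two2 * (4 * q.out)) * KT (dz Ω + zq Ω D (4 * q.out)) =
      ∑ q : RQ D, tc (θ D) * F (two2 * (4 * q.out)) * c⁻¹ *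
        KT (dz Ω + zq Ω D (4 * q.out)) := by
    rw [Finset.mul_sum]
    refine Finset.sum_congr rfl fun q _ => ?_
    rw [hc, inv_div]
    ring
  rw [e5]
  refine hlim.congr' ?_
  filter_upwards [self_mem_nhdsWithin] with δ (hδ : 0 < δ)
  rw [key δ hδ]


variable {L : PeriodPair} {Ω : ℂ} {ι : Type} [DecidableEq ι] {pr : ι → ZI} {θ : ZI → ZI}

open Classical in
/-- the coefficients with the primes of `T` removed -/
noncomputable def cTT (θ : ZI → ZI) (pr : ι → ZI) (S T : Finset ι) (a : ZI) : ℂ :=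
  if prim a ∧ ∀ i ∈ T, ¬ pr i ∣ a then tc (θ a * c4 pr S on1 a) else 0

/-- the value of the character -/
noncomputable def csT (θ : ZI → ZI) (pr : ι → ZI) (S : Finset ι) (i : ι) : ℂ := tc (θ (pr i) * c4 pr S on1 (pr i))

lemma cTT_empty (S : Finset ι) : cTT θ pr S ∅ = cT θ pr S := by
  classical
  funext a
  unfold cTT cT
  refine if_congr ?_ rfl rfl
  constructor
  · exact fun h => h.1
  · exact fun h => ⟨h, fun i hi => absurd hi (Finset.notMem_empty i)⟩

lemma cTT_bd (H : TR θ) (hp : PF pr) (S T : Finset ι) (a : ZI) : ‖cTT θ pr S T a‖ ≤ 1 := by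
  unfold cTT
  split_ifs
  · rw [tc_mul, norm_mul, H.tcn, one_mul]
    exact c4_bd hp S on1 a
  · simp

lemma RST_insert (H : TR θ) (h : IsLat L RG Ω) (hp : PF pr) (S T : Finset ι) (i : ι) (hi : i ∉ T) {δ : ℝ}
    (hδ : 0 < δ) : RS (cTT θ pr S (insert i T)) δ = RS (cTT θ pr S T) δ -
      csT θ pr S i / tc (pr i) * RS (cTT θ pr S T) (δ * Complex.normSq (tc (pr i))) := by
  classical
  have e1 : (fun b => cTT θ pr S T (pr i * b)) = fun b => csT θ pr S i * cTT θ pr S T b := by
    funext b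
    unfold cTT csT
    have h1 : (prim (pr i * b) ∧ ∀ j ∈ T, ¬ pr j ∣ pr i * b) ↔ (prim b ∧ ∀ j ∈ T, ¬ pr j ∣ b) := by
      rw [prim_mul_iff (hp.pp i).prm]
      refine and_congr_right fun _ => forall₂_congr fun j hj => ?_
      rw [hp.dvd_mul (fun h' : i = j => hi (by rw [h']; exact hj))]
    by_cases h2 : prim b ∧ ∀ j ∈ T, ¬ pr j ∣ b
    · rw [if_pos h2, if_pos (h1.2 h2), c4_mul hp, H.mul _ _ (hp.pp i).prm h2.1]
      simp only [tc_mul]
      ring
    · rw [if_neg h2, if_neg (fun h => h2 (h1.1 h)), mul_zero]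
  have e2 := RS_dvd (hp.pp i).ne (cTT θ pr S T) δ
  rw [e1] at e2
  have e3 : RS (fun b => csT θ pr S i * cTT θ pr S T b) (δ * Complex.normSq (tc (pr i))) =
      csT θ pr S i * RS (cTT θ pr S T) (δ * Complex.normSq (tc (pr i))) := by
    unfold RS
    rw [← tsum_mul_left]
    exact tsum_congr fun b => by ring
  rw [e3] at e2
  have e4 : RS (cTT θ pr S (insert i T)) δ = RS (cTT θ pr S T) δ -
      RS (fun a => if pr i ∣ a then cTT θ pr S T a else 0) δ := by
    have s1 := summ_bd h hδ (cTT_bd H hp S T)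
    have s2 := summ_bd h hδ (f := fun a => if pr i ∣ a then cTT θ pr S T a else 0) (C := 1) (by
      intro a
      split_ifs
      · exact cTT_bd H hp S T a
      · simp)
    unfold RS
    rw [← s1.tsum_sub s2]
    refine tsum_congr fun a => ?_
    rw [← sub_mul]
    congr 1
    unfold cTT
    by_cases h1 : pr i ∣ a
    · rw [if_neg, if_pos h1, sub_self]
      rintro ⟨-, h2⟩
      exact h2 i (Finset.mem_insert_self _ _) h1
    · rw [if_neg h1, sub_zero]
      refine if_congr (and_congr_right fun _ => ?_) rfl rfl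
      constructor
      · intro h2 j hj
        exact h2 j (Finset.mem_insert_of_mem hj)
      · intro h2 j hj
        rcases Finset.mem_insert.1 hj with rfl | hj
        · exact h1
        · exact h2 j hj
  rw [e4, e2]
  ring

theorem lim_cTT (H : TR θ) (h : IsLat L RG Ω) (hp : PF pr) (S : Finset ι) {l : ℂ}
    (hl : Tendsto (RS (cT θ pr S)) (𝓝[>] 0) (𝓝 l)) (T : Finset ι) :
    Tendsto (RS (cTT θ pr S T)) (𝓝[>] 0) (𝓝 (l * ∏ i ∈ T, (1 - csT θ pr S i / tc (pr i)))) := by
  induction T using Finset.induction_on with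
  | empty => rw [Finset.prod_empty, mul_one, cTT_empty]; exact hl
  | insert i T hi ih =>
    have hn : 0 < Complex.normSq (tc (pr i)) := Complex.normSq_pos.2 (tc_ne (hp.pp i).ne)
    have h1 := ih.sub ((tendsto_scale ih hn).const_mul (csT θ pr S i / tc (pr i)))
    rw [Finset.prod_insert hi]
    have e : l * ∏ i ∈ T, (1 - csT θ pr S i / tc (pr i)) - csT θ pr S i /
        tc (pr i) * (l * ∏ i ∈ T, (1 - csT θ pr S i / tc (pr i))) =
        l * ((1 - csT θ pr S i / tc (pr i)) *
          ∏ i ∈ T, (1 - csT θ pr S i / tc (pr i))) := by ring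
    rw [e] at h1
    refine h1.congr' ?_
    filter_upwards [self_mem_nhdsWithin] with δ (hδ : 0 < δ)
    exact (RST_insert H h hp S T i hi hδ).symm

theorem sum_cTT (V : Finset ι) (hp : PF pr) (a : ZI) :
    ∑ S ∈ V.powerset, cTT θ pr S (V \ S) a =
      (open Classical in if prim a then tc (θ a) * FV pr V a else 0) := by
  classical
  by_cases ha : prim a
  · rw [if_pos ha]
    by_cases hc : ∃ i ∈ V, pr i ∣ a
    · obtain ⟨i, hi, hia⟩ := hc
      have h1 : FV pr V a = 0 := by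
        unfold FV
        rw [if_neg]
        intro h2
        exact h2 i hi hia
      rw [h1, mul_zero]
      refine Finset.sum_eq_zero fun S _ => ?_
      by_cases hS : i ∈ S
      · unfold cTT
        rw [c4_zero _ hS hia]
        simp [tc_zero]
      · unfold cTT
        rw [if_neg]
        rintro ⟨-, h2⟩
        exact h2 i (Finset.mem_sdiff.2 ⟨hi, hS⟩) hia
    · push Not at hc
      have h1 : ∀ S ∈ V.powerset, cTT θ pr S (V \ S) a = tc (θ a) * ∏ i ∈ S, tc (q4 (pr i) a) := by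
        intro S _
        unfold cTT
        rw [if_pos ⟨ha, fun i hi => hc i (Finset.mem_sdiff.1 hi).1⟩, c4_one_exp hp, tc_mul, tc_prod]
      rw [Finset.sum_congr rfl h1, ← Finset.mul_sum, ← Finset.prod_one_add]
      unfold FV
      rw [if_pos hc]
  · rw [if_neg ha]
    unfold cTT
    refine Finset.sum_eq_zero fun S _ => ?_
    rw [if_neg (fun h => ha h.1)]

/-- existence of the limits -/
theorem exists_MT (H : TR θ) {KT : ℂ → ℂ} {χ : ZI → ℂ}
    (hχ : ∀ b, tc (θ (1 + two2 * b)) = χ b) (hG : GLat L Ω)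
    (h : ∀ z : ℂ, z ∉ L.lattice → Tendsto (fun δ : ℝ => ∑' b : ZI, χ b * fd δ (z + Ω * tc b))
      (𝓝[>] 0) (𝓝 (KT z))) (hp : PF pr) (S : Finset ι) [Fintype (RQ (DD pr S))] :
    Tendsto (RS (cT θ pr S)) (𝓝[>] 0) (𝓝 (tc (θ (DD pr S)) * Ω / (tc (DD pr S) * tc two2) *
      ∑ q : RQ (DD pr S), tc (c4 pr S on1 (two2 * (4 * q.out))) *
        KT (dz Ω + zq Ω (DD pr S) (4 * q.out)))) := by
  have h1 := limT H hχ hG h (DD_prim hp S) (fun a => tc (c4 pr S on1 a)) (fun a b hab => by
    rw [c4_per hp S on1 hab])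
  have e : (open Classical in fun a => if prim a then tc (θ a) * tc (c4 pr S on1 a) else 0) =
      cT θ pr S := by
    funext a
    unfold cT
    rw [tc_mul]
  rw [e] at h1
  exact h1

/-- **the relation** -/
theorem rel_TT (H : TR θ) {KT : ℂ → ℂ} {χ : ZI → ℂ}
    (hχ : ∀ b, tc (θ (1 + two2 * b)) = χ b) (hG : GLat L Ω)
    (h : ∀ z : ℂ, z ∉ L.lattice → Tendsto (fun δ : ℝ => ∑' b : ZI, χ b * fd δ (z + Ω * tc b))
      (𝓝[>] 0) (𝓝 (KT z))) (hp : PF pr) {M : Finset ι → ℂ}
    (hM : ∀ S, Tendsto (RS (cT θ pr S)) (𝓝[>] 0) (𝓝 (M S))) (V : Finset ι)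
    [Fintype (RQ (DD pr V))] :
    ∑ S ∈ V.powerset, M S * ∏ i ∈ V \ S, (1 - csT θ pr S i / tc (pr i)) =
      tc (θ (DD pr V)) * Ω / (tc (DD pr V) * tc two2) *
        ∑ q : RQ (DD pr V), FV pr V (two2 * (4 * q.out)) *
          KT (dz Ω + zq Ω (DD pr V) (4 * q.out)) := by
  classical
  have h1 := limT H hχ hG h (DD_prim hp V) (FV pr V) (fun a b hab => FV_per hp V hab)
  have h2 : Tendsto (fun δ : ℝ => ∑ S ∈ V.powerset, RS (cTT θ pr S (V \ S)) δ) (𝓝[>] 0)
      (𝓝 (∑ S ∈ V.powerset, M S * ∏ i ∈ V \ S, (1 - csT θ pr S i / tc (pr i)))) :=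
    tendsto_finsetSum _ fun S _ => lim_cTT H hG.lat hp S (hM S) (V \ S)
  refine tendsto_nhds_unique h2 (h1.congr' ?_)
  filter_upwards [self_mem_nhdsWithin] with δ (hδ : 0 < δ)
  unfold RS
  rw [← Summable.tsum_finsetSum (fun S _ => summ_bd hG.lat hδ (cTT_bd H hp S (V \ S)))]
  refine tsum_congr fun a => ?_
  rw [← Finset.sum_mul, sum_cTT V hp a]


section ev

variable {L : PeriodPair} {Ω : ℂ} {ι : Type} [Fintype ι] [DecidableEq ι] {pr : ι → ZI}
variable {Γ : Type} [LinearOrderedCommGroupWithZero Γ] {v : Valuation ℂ Γ} (h2 : v 2 < 1)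

include h2 in
/-- **the evaluation** -/
theorem ev_T {KT : ℂ → ℂ} {m : ℂ}
    (hper : ∀ (z : ℂ), z ∉ L.lattice → ∀ b : ZI, KT (z + Ω * tc (4 * b)) = KT z)
    (hVal : ∀ P : ℂ, OT L P → v ((KT (dz Ω + P) + KT (dz Ω - P)) / m) < 1 ∧
      v ((1 + I) * KT (dz Ω - P) / m) < 1) (hG : GLat L Ω) (hp : PF pr)
    {V : Finset ι} (hV : V.Nonempty) [Fintype (RQ (DD pr V))] :
    Cg v (∑ q : RQ (DD pr V), tc (Zf pr V (two2 * (4 * q.out))) *
      (KT (dz Ω + zq Ω (DD pr V) (4 * q.out)) / m)) 0 := by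
  classical
  have hD : prim (DD pr V) := DD_prim hp V
  have hD0 : DD pr V ≠ 0 := prim_ne_zero hD
  obtain ⟨r, hr⟩ := hV
  have h0 : tc (Zf pr V (two2 * (4 * (0 : RQ (DD pr V)).out))) *
      (KT (dz Ω + zq Ω (DD pr V) (4 * (0 : RQ (DD pr V)).out)) / m) = 0 := by
    have h1 : Zf pr V (two2 * (4 * (0 : RQ (DD pr V)).out)) = 0 := by
      unfold Zf
      rw [if_neg]
      intro h
      apply h r hr
      have h3 : DD pr V ∣ (0 : RQ (DD pr V)).out := (out_zero _).2 rfl
      exact (((dvd_DD hr).trans h3).mul_left _).mul_left _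
    rw [h1, tc_zero, zero_mul]
  rw [half_sum hD (fun q : RQ (DD pr V) => tc (Zf pr V (two2 * (4 * q.out))) *
      (KT (dz Ω + zq Ω (DD pr V) (4 * q.out)) / m)) h0]
  have key : ∀ q : RQ (DD pr V), Cg v (if eq' (DD pr V) q < eq' (DD pr V) (-q) then
      tc (Zf pr V (two2 * (4 * q.out))) * (KT (dz Ω + zq Ω (DD pr V) (4 * q.out)) / m) +
      tc (Zf pr V (two2 * (4 * (-q).out))) * (KT (dz Ω + zq Ω (DD pr V) (4 * (-q).out)) / m)
      else 0) 0 := by
    intro q
    by_cases hq : eq' (DD pr V) q < eq' (DD pr V) (-q)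
    · rw [if_pos hq]
      have hq0 : q ≠ 0 := by
        rintro rfl
        rw [neg_zero] at hq
        exact lt_irrefl _ hq
      have hnd : ¬ DD pr V ∣ 4 * q.out := by
        intro h
        exact hq0 ((out_zero q).1 ((cop_four hD).symm.dvd_of_dvd_mul_left h))
      have hOT := zq_OT hG hD hnd
      set P := zq Ω (DD pr V) (4 * q.out) with hP
      obtain ⟨c1, c2⟩ := hVal P hOT
      obtain ⟨c, hc⟩ := out_neg (DD pr V) q
      have hz : dz Ω - P ∉ L.lattice := by
        have := dz_add hG hD (-(4 * q.out))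
        rwa [zq_neg, ← sub_eq_add_neg] at this
      have e1 : KT (dz Ω + zq Ω (DD pr V) (4 * (-q).out)) = KT (dz Ω - P) := by
        rw [← hper _ hz c]
        congr 1
        have hc' := congrArg tc (show (-q).out = -q.out + DD pr V * c by linear_combination hc)
        rw [hP]
        unfold zq
        have hDc := tc_ne hD0
        rw [tc_mul 4 (-q).out, hc']
        simp only [tc_mul, tc_add, tc_neg]
        field_simp
        ring
      have e2 : Zf pr V (two2 * (4 * (-q).out)) = Zf pr V (-(two2 * (4 * q.out))) := by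
        apply Zf_per hp
        exact ⟨two2 * (4 * c), by linear_combination (two2 * 4) * hc⟩
      rw [e1, e2]
      set a := two2 * (4 * q.out) with ha
      set K1 := KT (dz Ω + P)
      set K2' := KT (dz Ω - P)
      obtain ⟨w, hw⟩ := Zf_diff hp V a
      have e3 : tc (Zf pr V a) * (K1 / m) + tc (Zf pr V (-a)) * (K2' / m) =
          tc (Zf pr V a) * ((K1 + K2') / m) + tc w * ((1 + I) * K2' / m) := by
        have h5 : tc (Zf pr V (-a)) = tc (Zf pr V a) + (1 + I) * tc w := by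
          have := congrArg tc hw
          rw [tc_sub, tc_mul, tc_pi1] at this
          linear_combination this
        rw [h5]
        ring
      rw [e3]
      have c4 : Cg v (tc (Zf pr V a) * ((K1 + K2') / m)) 0 := by
        apply Cg.zero
        rw [map_mul]
        exact lt_of_le_of_lt (mul_le_of_le_one_left' (tc_le h2 _)) c1
      have c5 : Cg v (tc w * ((1 + I) * K2' / m)) 0 := by
        apply Cg.zero
        rw [map_mul]
        exact lt_of_le_of_lt (mul_le_of_le_one_left' (tc_le h2 w)) c2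
      have c6 := c4.add c5
      rwa [add_zero] at c6
    · rw [if_neg hq]
      exact Cg.refl (by rw [map_zero]; exact zero_le_one)
  have h5 := Cg.sum Finset.univ fun q _ => key q
  rwa [Finset.sum_const_zero] at h5

include h2 in
theorem ev_TE {KT : ℂ → ℂ} {m : ℂ}
    (hper : ∀ (z : ℂ), z ∉ L.lattice → ∀ b : ZI, KT (z + Ω * tc (4 * b)) = KT z)
    (hG : GLat L Ω) (hB : Cg v (KT (dz Ω) / m) 1) [Fintype (RQ (DD pr ∅))] :
    Cg v (∑ q : RQ (DD pr ∅), tc (Zf pr ∅ (two2 * (4 * q.out))) *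
      (KT (dz Ω + zq Ω (DD pr ∅) (4 * q.out)) / m)) 1 := by
  classical
  have hD : DD pr ∅ = 1 := by unfold DD; exact Finset.prod_empty
  have hcard : Fintype.card (RQ (DD pr ∅)) = 1 := by
    rw [← Nat.card_eq_fintype_card, H385.H10.card_RQ, hD]
    decide
  have h1 : ∀ q : RQ (DD pr ∅), tc (Zf pr ∅ (two2 * (4 * q.out))) *
      (KT (dz Ω + zq Ω (DD pr ∅) (4 * q.out)) / m) = KT (dz Ω) / m := by
    intro q
    have e1 : Zf pr ∅ (two2 * (4 * q.out)) = 1 := by
      unfold Zf
      rw [if_pos (fun i hi => absurd hi (Finset.notMem_empty i)), Finset.prod_empty]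
    have e2 : zq Ω (DD pr ∅) (4 * q.out) = Ω * tc (4 * q.out) := by
      unfold zq
      have : tc (DD pr ∅) = 1 := by rw [hD, tc_one]
      rw [this, div_one]
    rw [e1, e2, tc_one, one_mul, hper _ hG.dz_notMem]
  rw [Finset.sum_congr rfl fun q _ => h1 q, Finset.sum_const, Finset.card_univ, hcard, one_smul]
  exact hB

end ev

variable {L : PeriodPair} {Ω : ℂ} {ι : Type} [Fintype ι] [DecidableEq ι] {pr : ι → ZI} {θ : ZI → ZI}

lemma th_sq (H : TR θ) (hp : PF pr) (j : ι) : θ (pr j) ^ 2 = sz (wq pr j) :=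
  H.sqr _ (hp.pp j).prm

theorem perT (H : TR θ) {KT : ℂ → ℂ} {χ : ZI → ℂ}
    (hχ : ∀ b, tc (θ (1 + two2 * b)) = χ b) (hG : GLat L Ω)
    (h : ∀ z : ℂ, z ∉ L.lattice → Tendsto (fun δ : ℝ => ∑' b : ZI, χ b * fd δ (z + Ω * tc b))
      (𝓝[>] 0) (𝓝 (KT z))) :
    ∀ (z : ℂ), z ∉ L.lattice → ∀ b : ZI, KT (z + Ω * tc (4 * b)) = KT z := by
  intro z hz m
  have hm : Ω * tc (4 * m) ∈ L.lattice := (mem_lat hG.lat).2 ⟨_, rfl⟩
  have hz' : z + Ω * tc (4 * m) ∉ L.lattice := by
    intro h'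
    apply hz
    have := sub_mem h' hm
    rwa [add_sub_cancel_right] at this
  refine tendsto_nhds_unique (h _ hz') ((h _ hz).congr fun δ => ?_)
  rw [← (Equiv.addRight (4 * m)).tsum_eq]
  refine tsum_congr fun b => ?_
  rw [Equiv.coe_addRight]
  have e1 : χ (b + 4 * m) = χ b := by
    rw [← hχ, ← hχ, mul_add, ← add_assoc, H.per]
  rw [e1, tc_add]
  congr 2
  ring

section val

variable {Γ : Type} [LinearOrderedCommGroupWithZero Γ] {v : Valuation ℂ Γ} (h2 : v 2 < 1)

include h2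

/-- the factors -/
theorem fac_T (H : TR θ) (hp : PF pr) {S : Finset ι} {j : ι} (hj : j ∉ S) :
    Cg v ((1 - csT θ pr S j / tc (pr j)) / (1 + I))
      (uu (wq pr j + ∑ u ∈ S, Pool.Agent.Y699.em pr u j)) := by
  set y := θ (pr j) * c4 pr S on1 (pr j) with hy
  have hyn : y.norm = 1 := by
    rw [hy, Zsqrtd.norm_mul, H.nm, c4_norm hp, one_mul]
    intro u hu h'
    exact hj (by rw [← hp.inj ((hp.pp u).eq_of_dvd (hp.pp j) h')]; exact hu)
  have hy2 : y ^ 2 = sz (wq pr j + ∑ u ∈ S, Pool.Agent.Y699.em pr u j) := by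
    rw [hy, mul_pow, th_sq H hp, sz_add, sz_sum, c4_one_exp hp, ← Finset.prod_pow]
    congr 1
    refine Finset.prod_congr rfl fun u hu => ?_
    rw [qr_sz hp (fun h : u = j => hj (by rw [← h]; exact hu))]
  have hny : (-y).norm = 1 := by rw [Zsqrtd.norm_neg]; exact hyn
  obtain ⟨z1, z2⟩ := zf_eq hny
  obtain ⟨t, ht⟩ := (prim_iff_dvd (pr j)).1 (hp.pp j).prm
  have hπ := tc_ne (hp.pp j).ne
  have h1I := one_I_ne
  have e1 : (1 - csT θ pr S j / tc (pr j)) / (1 + I) = tc (zf (-y) + 2 * t) / tc (pr j) := by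
    have e2 : pr j - y = pi1 * (zf (-y) + 2 * t) := by
      have e3 : two2 = pi1 * 2 := by decide
      rw [e3] at ht
      linear_combination ht + z1
    have e4 := congrArg tc e2
    rw [tc_sub, tc_mul pi1, tc_pi1] at e4
    have e5 : csT θ pr S j = tc y := rfl
    rw [e5]
    field_simp
    linear_combination e4
  rw [e1]
  have c1 : Cg v (tc (zf (-y) + 2 * t)) (uu (wq pr j + ∑ u ∈ S, Pool.Agent.Y699.em pr u j)) := by
    have c2 : pi1 ∣ (zf (-y) + 2 * t) - (if (-y) ^ 2 = -1 then 1 else 0) := by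
      have e3 : (zf (-y) + 2 * t) - (if (-y) ^ 2 = -1 then 1 else 0) =
          (zf (-y) - (if (-y) ^ 2 = -1 then 1 else 0)) + 2 * t := by ring
      rw [e3]
      refine dvd_add z2 (Dvd.dvd.mul_right ⟨⟨1, -1⟩, by decide⟩ _)
    have c3 := cg_dvd (v := v) h2 c2
    have e4 : tc (if (-y) ^ 2 = -1 then 1 else 0) =
        uu (wq pr j + ∑ u ∈ S, Pool.Agent.Y699.em pr u j) := by
      rw [neg_sq, hy2]
      unfold uu
      by_cases h : wq pr j + ∑ u ∈ S, Pool.Agent.Y699.em pr u j = 1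
      · rw [if_pos h, if_pos ((sz_iff _).2 h), tc_one]
      · rw [if_neg h, if_neg (fun h' => h ((sz_iff _).1 h')), tc_zero]
    rwa [e4] at c3
  obtain ⟨p1, p2⟩ := v_prim (v := v) h2 (hp.pp j).prm
  have c4 : Cg v (tc (pr j))⁻¹ 1 := by
    refine ⟨by rw [map_inv₀, p2, inv_one], by rw [map_one], ?_⟩
    have e : (tc (pr j))⁻¹ - 1 = -(tc (pr j) - 1) * (tc (pr j))⁻¹ := by
      field_simp
      ring
    rw [e, map_mul, map_inv₀, p2, inv_one, mul_one, Valuation.map_neg]
    exact p1.s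
  have c5 := c1.mul c4
  rw [mul_one] at c5
  rwa [div_eq_mul_inv]

end val

/-- **the congruence** -/
theorem muT_cg (H : TR θ) {KT : ℂ → ℂ} {χ : ZI → ℂ}
    (hχ : ∀ b, tc (θ (1 + two2 * b)) = χ b) (hG : GLat L Ω)
    (h : ∀ z : ℂ, z ∉ L.lattice → Tendsto (fun δ : ℝ => ∑' b : ZI, χ b * fd δ (z + Ω * tc b))
      (𝓝[>] 0) (𝓝 (KT z)))
    (hp : PF pr) {m : ℂ} (hm0 : m ≠ 0) {M : Finset ι → ℂ}
    (hM : ∀ S, Tendsto (RS (cT θ pr S)) (𝓝[>] 0) (𝓝 (M S)))
    {Γ : Type} [LinearOrderedCommGroupWithZero Γ] {v : Valuation ℂ Γ} (h2 : v 2 < 1)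
    (hB : Cg v (KT (dz Ω) / m) 1)
    (hVal : ∀ P : ℂ, OT L P → v ((KT (dz Ω + P) + KT (dz Ω - P)) / m) < 1 ∧
      v ((1 + I) * KT (dz Ω - P) / m) < 1) :
    ∀ V : Finset ι, Cg v (mu Ω m M V) (uu ((Ff.MM (wq pr) (Pool.Agent.Y699.em pr) V V).det)) := by
  classical
  intro V
  induction V using Finset.strongInduction with
  | H V ih =>
    haveI := H385.he1_finite (DD_ne hp V)
    letI := Fintype.ofFinite (RQ (DD pr V))
    have hΩ := hG.lat.ne
    have h2c := tc_ne two2_ne
    have h1I := one_I_ne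
    have hDc := tc_ne (DD_ne hp V)
    have hD := DD_prim hp V
    have hrel := rel_TT H hχ hG h hp hM V
    -- the right hand side
    set X : ℂ := ∑ q : RQ (DD pr V), tc (Zf pr V (two2 * (4 * q.out))) *
      (KT (dz Ω + zq Ω (DD pr V) (4 * q.out)) / m) with hX
    have hXc : Cg v X (uu ((if V.card = 0 then 1 else 0))) := by
      rcases V.eq_empty_or_nonempty with rfl | hne
      · rw [Finset.card_empty, if_pos rfl, uu_one]
        exact ev_TE (pr := pr) h2 (perT H hχ hG h) hG hB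
      · rw [if_neg (Finset.card_pos.2 hne).ne', uu_zero]
        exact ev_T h2 (perT H hχ hG h) hVal hG hp hne
    have hR : ∑ S ∈ V.powerset, mu Ω m M S *
        ∏ j ∈ V \ S, ((1 - csT θ pr S j / tc (pr j)) / (1 + I)) =
        tc (θ (DD pr V)) / tc (DD pr V) * X := by
      have e1 : ∀ S ∈ V.powerset, mu Ω m M S *
          ∏ j ∈ V \ S, ((1 - csT θ pr S j / tc (pr j)) / (1 + I)) =
          (M S * ∏ i ∈ V \ S, (1 - csT θ pr S i / tc (pr i))) /
            (Ω / tc two2 * m * (1 + I) ^ V.card) := by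
        intro S hS
        rw [Finset.mem_powerset] at hS
        have e2 : (V \ S).card + S.card = V.card := Finset.card_sdiff_add_card_eq_card hS
        rw [Finset.prod_div_distrib, Finset.prod_const, ← e2, pow_add]
        unfold mu
        field_simp
      rw [Finset.sum_congr rfl e1, ← Finset.sum_div, hrel, hX, Finset.mul_sum, Finset.mul_sum,
        Finset.sum_div]
      refine Finset.sum_congr rfl fun q _ => ?_
      rw [FV_eq hp]
      field_simp
    have hYc : Cg v (tc (θ (DD pr V)) / tc (DD pr V) * X) (uu ((if V.card = 0 then 1 else 0))) := by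
      obtain ⟨p1, p2⟩ := v_prim (v := v) h2 hD
      have c1 := cg_one (v := v) h2 (H.nm (DD pr V))
      have c2 : Cg v (tc (θ (DD pr V)) / tc (DD pr V)) 1 := by
        refine ⟨by rw [map_div₀, p2, div_one]; exact c1.l, by rw [map_one], ?_⟩
        have e : tc (θ (DD pr V)) / tc (DD pr V) - 1 =
            ((tc (θ (DD pr V)) - 1) - (tc (DD pr V) - 1)) / tc (DD pr V) := by
          field_simp
          ring
        rw [e, map_div₀, p2, div_one]
        exact v.map_sub_lt c1.s p1.s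
      have := c2.mul hXc
      rwa [one_mul] at this
    -- the two sums
    have hVm : V ∈ V.powerset := Finset.mem_powerset_self V
    rw [← Finset.add_sum_erase _ _ hVm, Finset.sdiff_self, Finset.prod_empty, mul_one] at hR
    have hN := Pool.Agent.E8helper75.Q2.part1 (wq pr) (Pool.Agent.Y699.em pr) (em_self hp) V
    rw [← Finset.add_sum_erase _ _ hVm, Finset.sdiff_self, Finset.prod_empty, mul_one] at hN
    have hsum : Cg v (∑ S ∈ V.powerset.erase V, mu Ω m M S *
        ∏ j ∈ V \ S, ((1 - csT θ pr S j / tc (pr j)) / (1 + I)))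
        (∑ S ∈ V.powerset.erase V, uu ((Ff.MM (wq pr) (Pool.Agent.Y699.em pr) S S).det *
          ∏ j ∈ V \ S, (wq pr j + ∑ u ∈ S, Pool.Agent.Y699.em pr u j))) := by
      refine Cg.sum _ fun S hS => ?_
      rw [Finset.mem_erase, Finset.mem_powerset] at hS
      have hlt : S ⊂ V := Finset.ssubset_iff_subset_ne.2 ⟨hS.2, hS.1⟩
      rw [uu_mul, uu_prod]
      refine (ih S hlt).mul (Cg.prod _ fun j hj => ?_)
      exact fac_T h2 H hp (Finset.mem_sdiff.1 hj).2
    have e1 : mu Ω m M V = tc (θ (DD pr V)) / tc (DD pr V) * X -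
        ∑ S ∈ V.powerset.erase V, mu Ω m M S *
          ∏ j ∈ V \ S, ((1 - csT θ pr S j / tc (pr j)) / (1 + I)) := by
      linear_combination hR
    have c6 := hYc.sub (hsum.trans (uu_sum h2 _ _).symm)
    rw [← e1] at c6
    refine c6.trans ?_
    have e2 : (if V.card = 0 then 1 else 0) = (Ff.MM (wq pr) (Pool.Agent.Y699.em pr) V V).det +
        ∑ S ∈ V.powerset.erase V, (Ff.MM (wq pr) (Pool.Agent.Y699.em pr) S S).det *
          ∏ j ∈ V \ S, (wq pr j + ∑ u ∈ S, Pool.Agent.Y699.em pr u j) := hN.symm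
    rw [e2]
    set a := (Ff.MM (wq pr) (Pool.Agent.Y699.em pr) V V).det
    set b := ∑ S ∈ V.powerset.erase V, (Ff.MM (wq pr) (Pool.Agent.Y699.em pr) S S).det *
          ∏ j ∈ V \ S, (wq pr j + ∑ u ∈ S, Pool.Agent.Y699.em pr u j)
    have c7 := (uu_add (v := v) h2 a b).sub (Cg.refl (v_uu (v := v) b))
    rwa [add_sub_cancel_right] at c7



end Pool.Agent.E8helper75.F3
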